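import Pool.Agent.Helper58.IQ.Char

/-!
# Conjecture A: isomorphic modules and direct sums
-/

set_option autoImplicit false

open scoped NumberField

namespace Pool.Agent.Helper58.IQ

theorem Iso.symm' {G : Type*} [Group G] {M N : Type*} [AddCommGroup M] [AddCommGroup N]
    {ρ : G →* AddMonoid.End M} {σ : G →* AddMonoid.End N} (h : Iso ρ σ) : Iso σ ρ := by
  obtain ⟨e, he⟩ := h
  refine ⟨e.symm, fun g n => ?_⟩
  apply e.injective
  rw [e.apply_symm_apply, he, e.apply_symm_apply]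

theorem Iso.one_iff {G : Type*} [Group G] {M N : Type*} [AddCommGroup M] [AddCommGroup N]
    {ρ : G →* AddMonoid.End M} {σ : G →* AddMonoid.End N} (h : Iso ρ σ) {g : G}
    (hg : ρ g = 1) : σ g = 1 := by
  obtain ⟨e, he⟩ := h
  refine AddMonoidHom.ext fun n => ?_
  have h1 := he g (e.symm n)
  rw [hg, e.apply_symm_apply] at h1
  exact h1.symm.trans (e.apply_symm_apply n)

theorem conjA_iso_one {K : Type*} [Field K] (p : ℕ) [Fact p.Prime] {M N : Type*} [AddCommGroup M]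
    [AddCommGroup N] {ρ : GK K →* AddMonoid.End M} {σ : GK K →* AddMonoid.End N}
    (h : Iso ρ σ) (hA : ConjA p ρ) : ConjA p σ := by
  intro S hS f hf hinv hcoc
  have hS' : Adm p ρ S := ⟨hS.1, fun P h1 h2 h3 =>
    ⟨(hS.2 P h1 h2 h3).1, fun g hg => h.symm'.one_iff ((hS.2 P h1 h2 h3).2 g hg)⟩⟩
  obtain ⟨e, he⟩ := h
  have he' : ∀ g n, e.symm (σ g n) = ρ g (e.symm n) := by
    intro g n
    apply e.injective
    rw [e.apply_symm_apply, he, e.apply_symm_apply]
  obtain ⟨u, hu, hinvu, hcob⟩ := hA S hS' (fun g h => e.symm (f g h))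
    (hf.comp e.symm) (fun g h n m hn hm => by rw [hinv g h n m hn hm]) (fun g h k => by
      rw [← he', ← map_sub, ← map_add, ← map_sub, hcoc, map_zero])
  refine ⟨fun g => e (u g), hu.comp e, fun g n hn => congrArg e (hinvu g n hn), fun g h => ?_⟩
  rw [← he, ← map_sub, ← map_add, ← hcob, e.apply_symm_apply]

/-- Conjecture A depends only on the isomorphism class of the module. -/
theorem conjA_iso {K : Type*} [Field K] (p : ℕ) [Fact p.Prime] {M N : Type*} [AddCommGroup M]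
    [AddCommGroup N] {ρ : GK K →* AddMonoid.End M} {σ : GK K →* AddMonoid.End N}
    (h : Iso ρ σ) : ConjA p ρ ↔ ConjA p σ :=
  ⟨conjA_iso_one p h, conjA_iso_one p h.symm'⟩

theorem prodRep_one_iff {G : Type*} [Group G] {M N : Type*} [AddCommGroup M] [AddCommGroup N]
    (ρ : G →* AddMonoid.End M) (σ : G →* AddMonoid.End N) (g : G) :
    prodRep ρ σ g = 1 ↔ ρ g = 1 ∧ σ g = 1 := by
  constructor
  · intro h
    have h1 : ∀ x : M × N, prodRep ρ σ g x = x := fun x => by rw [h]; rfl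
    constructor
    · refine AddMonoidHom.ext fun m => ?_
      exact congrArg Prod.fst (h1 (m, 0))
    · refine AddMonoidHom.ext fun n => ?_
      exact congrArg Prod.snd (h1 (0, n))
  · rintro ⟨h1, h2⟩
    refine AddMonoidHom.ext fun x => ?_
    have h3 : ρ g x.1 = x.1 := by rw [h1]; rfl
    have h4 : σ g x.2 = x.2 := by rw [h2]; rfl
    exact Prod.ext h3 h4

theorem h2Zero_prod {K : Type*} [Field K] (p : ℕ) [Fact p.Prime] {M N : Type*} [AddCommGroup M]
    [AddCommGroup N] (ρ : GK K →* AddMonoid.End M) (σ : GK K →* AddMonoid.End N)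
    (S : Set (Ideal (𝓞 K))) :
    H2Zero p S (prodRep ρ σ) ↔ H2Zero p S ρ ∧ H2Zero p S σ := by
  constructor
  · intro h
    constructor
    · intro f hf hinv hcoc
      obtain ⟨u, hu, hinvu, hcob⟩ := h (fun g h => (f g h, 0))
        (hf.comp fun m => ((m, 0) : M × N))
        (fun g h n m hn hm => by rw [hinv g h n m hn hm]) (fun g h k => by
          rw [prodRep_apply]
          refine Prod.ext ?_ ?_
          · exact hcoc g h k
          · simp)
      refine ⟨fun g => (u g).1, hu.comp Prod.fst, fun g n hn => congrArg Prod.fst (hinvu g n hn),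
        fun g h => ?_⟩
      exact congrArg Prod.fst (hcob g h)
    · intro f hf hinv hcoc
      obtain ⟨u, hu, hinvu, hcob⟩ := h (fun g h => (0, f g h))
        (hf.comp fun n => ((0, n) : M × N))
        (fun g h n m hn hm => by rw [hinv g h n m hn hm]) (fun g h k => by
          rw [prodRep_apply]
          refine Prod.ext ?_ ?_
          · simp
          · exact hcoc g h k)
      refine ⟨fun g => (u g).2, hu.comp Prod.snd, fun g n hn => congrArg Prod.snd (hinvu g n hn),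
        fun g h => ?_⟩
      exact congrArg Prod.snd (hcob g h)
  · rintro ⟨h1, h2⟩ f hf hinv hcoc
    obtain ⟨u, hu, hinvu, hcob⟩ := h1 (fun g h => (f g h).1) (hf.comp Prod.fst)
      (fun g h n m hn hm => by rw [hinv g h n m hn hm])
      (fun g h k => congrArg Prod.fst (hcoc g h k))
    obtain ⟨w, hw, hinvw, hcobw⟩ := h2 (fun g h => (f g h).2) (hf.comp Prod.snd)
      (fun g h n m hn hm => by rw [hinv g h n m hn hm])
      (fun g h k => congrArg Prod.snd (hcoc g h k))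
    refine ⟨fun g => (u g, w g), hu.prodMk hw,
      fun g n hn => Prod.ext (hinvu g n hn) (hinvw g n hn),
      fun g h => ?_⟩
    exact Prod.ext (hcob g h) (hcobw g h)

/-- Conjecture A for a direct sum of two modules which are ramified at the same primes. -/
theorem conjA_prod {K : Type*} [Field K] (p : ℕ) [Fact p.Prime] {M N : Type*} [AddCommGroup M]
    [AddCommGroup N] (ρ : GK K →* AddMonoid.End M) (σ : GK K →* AddMonoid.End N)
    (h : ∀ P : Ideal (𝓞 (Kb K)), P.IsPrime → P ≠ ⊥ → (p : 𝓞 (Kb K)) ∉ P →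
      ((∀ g ∈ inert P, ρ g = 1) ↔ (∀ g ∈ inert P, σ g = 1))) :
    ConjA p (prodRep ρ σ) ↔ ConjA p ρ ∧ ConjA p σ := by
  have key : ∀ S : Set (Ideal (𝓞 K)), (Adm p (prodRep ρ σ) S ↔ Adm p ρ S) ∧
      (Adm p (prodRep ρ σ) S ↔ Adm p σ S) := by
    intro S
    refine ⟨⟨fun hS => ⟨hS.1, fun P h1 h2 h3 => ⟨(hS.2 P h1 h2 h3).1, fun g hg =>
      ((prodRep_one_iff ρ σ g).1 ((hS.2 P h1 h2 h3).2 g hg)).1⟩⟩, fun hS => ⟨hS.1,
      fun P h1 h2 h3 => ?_⟩⟩, ⟨fun hS => ⟨hS.1, fun P h1 h2 h3 => ⟨(hS.2 P h1 h2 h3).1,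
      fun g hg => ((prodRep_one_iff ρ σ g).1 ((hS.2 P h1 h2 h3).2 g hg)).2⟩⟩, fun hS => ⟨hS.1,
      fun P h1 h2 h3 => ?_⟩⟩⟩
    · obtain ⟨a, b⟩ := hS.2 P h1 h2 h3
      exact ⟨a, fun g hg => (prodRep_one_iff ρ σ g).2 ⟨b g hg, (h P h1 h2 a).1 b g hg⟩⟩
    · obtain ⟨a, b⟩ := hS.2 P h1 h2 h3
      exact ⟨a, fun g hg => (prodRep_one_iff ρ σ g).2 ⟨(h P h1 h2 a).2 b g hg, b g hg⟩⟩
  constructor
  · intro hA
    exact ⟨fun S hS => ((h2Zero_prod p ρ σ S).1 (hA S ((key S).1.2 hS))).1,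
      fun S hS => ((h2Zero_prod p ρ σ S).1 (hA S ((key S).2.2 hS))).2⟩
  · rintro ⟨h1, h2⟩ S hS
    exact (h2Zero_prod p ρ σ S).2 ⟨h1 S ((key S).1.1 hS), h2 S ((key S).2.1 hS)⟩

end Pool.Agent.Helper58.IQ
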